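import Pool.Agent.H89.FLT.S

/-!
# Row SQR of the board flt (MP_e1ba20)
-/

set_option autoImplicit false

open Matrix Polynomial

namespace Pool.FLT

namespace H15Q

theorem det_cst {n : ℕ} (η : Matrix (Fin n) (Fin n) ℤ) : (cst η).det = ((η.det : ℤ) : ℝ) := by
  unfold cst
  exact (Int.cast_det η).symm

theorem cst_pow {n : ℕ} (η : Matrix (Fin n) (Fin n) ℤ) (k : ℕ) : cst (η ^ k) = cst η ^ k := by
  unfold cst
  have := map_pow (Int.castRingHom ℝ).mapMatrix η k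
  simpa using this

theorem det_g {n : ℕ} (g : GR n) : (g : Matrix (Fin n) (Fin n) ℝ).det = 1 := g.2

theorem dg_pow {n : ℕ} {g : GR n} {η : Matrix (Fin n) (Fin n) ℤ} {d : Fin n → ℝ}
    (h : Dg g η d) (k : ℕ) : cst η ^ k * (g : Matrix (Fin n) (Fin n) ℝ) =
      (g : Matrix (Fin n) (Fin n) ℝ) * Matrix.diagonal (fun i => d i ^ k) := by
  induction k with
  | zero =>
    simp
  | succ k ih =>
    have h' : cst η * (g : Matrix (Fin n) (Fin n) ℝ) =
      (g : Matrix (Fin n) (Fin n) ℝ) * Matrix.diagonal d := h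
    rw [pow_succ, Matrix.mul_assoc, h', ← Matrix.mul_assoc, ih, Matrix.mul_assoc,
      Matrix.diagonal_mul_diagonal]
    simp only [pow_succ]

end H15Q

theorem sqr : SQRStmt := by
  intro n Γ hΓ
  refine ⟨Γ.index.factorial, Nat.factorial_pos _, ?_⟩
  rintro g x ⟨η, d, hd, hx⟩
  have hdet : (cst η).det * 1 = 1 * ∏ i, d i := by
    have h1 := congrArg Matrix.det (show cst η * (g : Matrix (Fin n) (Fin n) ℝ) =
      (g : Matrix (Fin n) (Fin n) ℝ) * Matrix.diagonal d from hd)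
    rw [Matrix.det_mul, Matrix.det_mul, H15Q.det_g, Matrix.det_diagonal] at h1
    exact h1
  have habs : |(cst η).det| = 1 := by
    rw [mul_one, one_mul] at hdet
    rw [hdet, Finset.abs_prod]
    rw [Finset.prod_congr rfl (fun i _ => hx i), ← Real.exp_sum]
    have h : ∑ i, (x : EuclideanSpace ℝ (Fin n)) i = 0 := x.2
    rw [h, Real.exp_zero]
  have hdetZ : (η ^ 2).det = 1 := by
    rw [H15Q.det_cst] at habs
    have h2 : |η.det| = 1 := by exact_mod_cast habs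
    rw [Matrix.det_pow, ← sq_abs, h2, one_pow]
  obtain ⟨γ, hγ⟩ : ∃ γ : GZ n, γ = ⟨η ^ 2, hdetZ⟩ := ⟨_, rfl⟩
  have hγc : (γ : Matrix (Fin n) (Fin n) ℤ) = η ^ 2 := by rw [hγ]
  have hmem : γ ^ Γ.index.factorial ∈ Γ := by
    haveI : Γ.FiniteIndex := ⟨hΓ⟩
    obtain ⟨k, hk0, hk1, hk2⟩ := Subgroup.exists_pow_mem_of_index_ne_zero hΓ γ
    obtain ⟨c, hc⟩ := Nat.dvd_factorial hk0 hk1
    rw [hc, pow_mul]
    exact Γ.pow_mem hk2 c
  refine ⟨_, hmem, ?_⟩
  apply Subtype.ext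
  rw [Matrix.SpecialLinearGroup.coe_mul, Matrix.SpecialLinearGroup.coe_mul, map_pow,
    Matrix.SpecialLinearGroup.coe_pow]
  have h3 : ((inc n γ : GR n) : Matrix (Fin n) (Fin n) ℝ) = cst η ^ 2 := by
    have h4 : ((inc n γ : GR n) : Matrix (Fin n) (Fin n) ℝ) =
        cst (γ : Matrix (Fin n) (Fin n) ℤ) := by
      ext i j
      rfl
    rw [h4, hγc, H15Q.cst_pow]
  rw [h3, ← pow_mul, H15Q.dg_pow hd]
  congr 1
  show _ = Matrix.diagonal _
  congr 1
  funext i
  have h5 : d i ^ (2 * Γ.index.factorial) = |d i| ^ (2 * Γ.index.factorial) := by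
    rw [pow_mul, pow_mul, sq_abs]
  rw [h5, hx i, ← Real.exp_nat_mul]
  congr 1
  simp only [Submodule.coe_smul, PiLp.smul_apply, smul_eq_mul]
  push_cast
  ring

end Pool.FLT
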